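import Pool.Agent.Helper42.SLR.Defs

namespace Pool.Agent.Helper68.SLR.FIN

open Pool.Agent.Helper42.SLR

theorem fin : S_FIN := by
  intro p g N deg c hp hN hc
  set C2 : ℝ := 4 * deg * (4 * g + c) with hC2
  have hC2n : 0 ≤ C2 := by positivity
  refine ⟨2 * (2 + C2) ^ N, by positivity, ?_⟩
  intro U l hU hl hyp
  set L : ℝ := U * Real.log U with hL
  have hU' : (2 : ℝ) ≤ U := by exact_mod_cast hU
  have hlog2 : (1 / 2 : ℝ) ≤ Real.log 2 := by linarith [Real.log_two_gt_d9]
  have hlogU : Real.log 2 ≤ Real.log U := Real.log_le_log (by norm_num) hU'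
  have hL1 : 1 ≤ L := by
    rw [hL]; nlinarith
  have hUL : (U : ℝ) ≤ 2 * L := by
    rw [hL]; nlinarith
  rcases Nat.eq_zero_or_pos l with h0 | hlpos
  · subst h0
    simp only [Nat.cast_zero]
    positivity
  have hl1 : (1 : ℝ) ≤ l := by exact_mod_cast hlpos
  -- K
  set K := Nat.findGreatest (fun K => 2 * K ^ N ≤ l) l with hK
  have hP0 : 2 * 0 ^ N ≤ l := by rw [zero_pow (by omega)]; omega
  have hPK : 2 * K ^ N ≤ l :=
    Nat.findGreatest_spec (P := fun K => 2 * K ^ N ≤ l) (Nat.zero_le l) hP0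
  have hlt : l < 2 * (K + 1) ^ N := by
    by_contra hcon
    push_neg at hcon
    rcases Nat.lt_or_ge l (K + 1) with h | h
    · -- K ≥ l
      have hKpos : 1 ≤ K := by omega
      have : K ≤ K ^ N := by
        calc K = K ^ 1 := (pow_one K).symm
          _ ≤ K ^ N := Nat.pow_le_pow_right hKpos hN
      omega
    · have := Nat.le_findGreatest (P := fun K => 2 * K ^ N ≤ l) h hcon
      rw [← hK] at this
      omega
  set m := l * K / 2 with hm
  have hm1 : 2 * m ≤ l * K := Nat.mul_div_le _ _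
  have hm2 : l * K ≤ 2 * m + 1 := by omega
  have h := hyp K m hPK hm1
  -- take logarithms
  have hp0 : (0 : ℝ) < p := by
    have : 0 < p := by omega
    exact_mod_cast this
  have hp2 : (2 : ℝ) ≤ p := by exact_mod_cast hp
  have hfac : (0 : ℝ) < (l.factorial : ℝ) := by exact_mod_cast Nat.factorial_pos l
  have hlog := Real.log_le_log (pow_pos hp0 m) h
  rw [Real.log_pow, Real.log_pow, Real.log_mul hfac.ne' (pow_pos (Real.exp_pos _) _).ne',
    Real.log_pow, Real.log_exp] at hlog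
  have hfl : Real.log (l.factorial : ℝ) ≤ l * Real.log l := by
    have h1 : ((l.factorial : ℕ) : ℝ) ≤ ((l ^ l : ℕ) : ℝ) := by exact_mod_cast Nat.factorial_le_pow l
    rw [← Real.log_pow]
    push_cast at h1
    exact Real.log_le_log hfac h1
  have hll : Real.log l ≤ 4 * g * L := by
    have h1 : (l : ℝ) ≤ (2 * U + 1) ^ g := by exact_mod_cast hl
    have h2 : Real.log l ≤ g * Real.log (2 * U + 1) := by
      rw [← Real.log_pow]
      exact Real.log_le_log (by linarith) h1
    have h3 : Real.log (2 * U + 1) ≤ 2 * U := by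
      have := Real.log_le_sub_one_of_pos (show (0 : ℝ) < 2 * U + 1 by positivity)
      linarith
    have h4 : (g : ℝ) * Real.log (2 * U + 1) ≤ g * (4 * L) := by
      apply mul_le_mul_of_nonneg_left _ (Nat.cast_nonneg g)
      linarith
    linarith
  have hmlow : (m : ℝ) * (1 / 2) ≤ (m : ℝ) * Real.log p := by
    apply mul_le_mul_of_nonneg_left _ (Nat.cast_nonneg m)
    exact hlog2.trans (Real.log_le_log (by norm_num) hp2)
  have hmK : ((l : ℝ) * K - 1) / 2 ≤ m := by
    have : ((l * K : ℕ) : ℝ) ≤ ((2 * m + 1 : ℕ) : ℝ) := by exact_mod_cast hm2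
    push_cast at this
    linarith
  have hd : (0 : ℝ) ≤ deg := Nat.cast_nonneg deg
  have hmain : (deg : ℝ) * (Real.log (l.factorial : ℝ) + l * (c * L)) ≤ deg * (l * ((4 * g + c) * L)) := by
    apply mul_le_mul_of_nonneg_left _ hd
    have : (l : ℝ) * Real.log l ≤ l * (4 * g * L) := mul_le_mul_of_nonneg_left hll (by linarith)
    nlinarith
  have hKl : (l : ℝ) * K ≤ l * (1 + C2 * L) := by
    have e : (l : ℝ) * (C2 * L) = 4 * (deg * (l * ((4 * g + c) * L))) := by rw [hC2]; ring
    have : (l : ℝ) * K - 1 ≤ l * (C2 * L) := by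
      rw [e]
      linarith
    linarith
  have hKb : (K : ℝ) ≤ 1 + C2 * L := le_of_mul_le_mul_left hKl (by linarith)
  have hK1 : (K : ℝ) + 1 ≤ (2 + C2) * L := by nlinarith
  have hlr : (l : ℝ) ≤ 2 * ((K : ℝ) + 1) ^ N := by
    have : ((l : ℕ) : ℝ) ≤ ((2 * (K + 1) ^ N : ℕ) : ℝ) := by exact_mod_cast hlt.le
    push_cast at this
    exact this
  calc (l : ℝ) ≤ 2 * ((K : ℝ) + 1) ^ N := hlr
    _ ≤ 2 * ((2 + C2) * L) ^ N := by
        apply mul_le_mul_of_nonneg_left _ (by norm_num)
        exact pow_le_pow_left₀ (by positivity) hK1 N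
    _ = 2 * (2 + C2) ^ N * L ^ N := by rw [mul_pow]; ring

end Pool.Agent.Helper68.SLR.FIN
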