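import Pool.Agent.Helper42.SLR.Defs

namespace Pool.Agent.Helper68.SLR.GDM

open Pool.Agent.Helper42.SLR

universe v x

section

variable {k : Type v} [NormedField k] [IsUltrametricDist k] {N : ℕ} {r : ℝ}

theorem eval_le (hr : 0 ≤ r) (hr1 : r ≤ 1) (P : MvPolynomial (Fin N) k)
    (hP : ∀ τ, ‖P.coeff τ‖ ≤ r ^ (∑ n, τ n)) (z : Fin N → k) (hz : ∀ n, ‖z n‖ ≤ 1) :
    ‖MvPolynomial.eval z P‖ ≤ 1 := by
  rw [MvPolynomial.eval_eq']
  apply IsUltrametricDist.norm_sum_le_of_forall_le_of_nonneg zero_le_one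
  intro d _
  rw [norm_mul, norm_prod]
  have h1 : ‖P.coeff d‖ ≤ 1 := (hP d).trans (pow_le_one₀ hr hr1)
  have h2 : ∏ i, ‖z i ^ d i‖ ≤ 1 := by
    apply Finset.prod_le_one
    · intro i _; exact norm_nonneg _
    · intro i _; rw [norm_pow]; exact pow_le_one₀ (norm_nonneg _) (hz i)
  calc ‖P.coeff d‖ * ∏ i, ‖z i ^ d i‖ ≤ 1 * 1 :=
        mul_le_mul h1 h2 (Finset.prod_nonneg fun i _ ↦ norm_nonneg _) zero_le_one
    _ = 1 := one_mul 1

theorem Gd_mul (hr : 0 ≤ r) (hr1 : r ≤ 1) (f g : (Fin N → k) → k) (hf : Gd r f) (hg : Gd r g) :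
    Gd r (fun z ↦ f z * g z) := by
  intro K
  obtain ⟨P, hP, hfP⟩ := hf K
  obtain ⟨Q, hQ, hgQ⟩ := hg K
  refine ⟨P * Q, ?_, ?_⟩
  · intro τ
    rw [MvPolynomial.coeff_mul]
    apply IsUltrametricDist.norm_sum_le_of_forall_le_of_nonneg (pow_nonneg hr _)
    intro y hy
    rw [Finset.HasAntidiagonal.mem_antidiagonal] at hy
    rw [norm_mul, ← hy]
    have e : ∑ n, (y.1 + y.2) n = ∑ n, y.1 n + ∑ n, y.2 n := by
      rw [← Finset.sum_add_distrib]; rfl
    rw [e, pow_add]
    exact mul_le_mul (hP _) (hQ _) (norm_nonneg _) (pow_nonneg hr _)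
  · intro z hz
    have hk : r ^ K ≤ 1 := pow_le_one₀ hr hr1
    have e : f z * g z - MvPolynomial.eval z (P * Q) =
        f z * (g z - MvPolynomial.eval z Q) + (f z - MvPolynomial.eval z P) * MvPolynomial.eval z Q := by
      rw [map_mul]; ring
    have hf1 : ‖f z‖ ≤ 1 := by
      have e2 : f z = (f z - MvPolynomial.eval z P) + MvPolynomial.eval z P := by ring
      rw [e2]
      exact (IsUltrametricDist.norm_add_le_max _ _).trans
        (max_le ((hfP z hz).trans hk) (eval_le hr hr1 P hP z hz))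
    rw [e]
    refine (IsUltrametricDist.norm_add_le_max _ _).trans (max_le ?_ ?_)
    · rw [norm_mul]
      calc ‖f z‖ * ‖g z - MvPolynomial.eval z Q‖ ≤ 1 * r ^ K :=
            mul_le_mul hf1 (hgQ z hz) (norm_nonneg _) zero_le_one
        _ = r ^ K := one_mul _
    · rw [norm_mul]
      calc ‖f z - MvPolynomial.eval z P‖ * ‖MvPolynomial.eval z Q‖ ≤ r ^ K * 1 :=
            mul_le_mul (hfP z hz) (eval_le hr hr1 Q hQ z hz) (norm_nonneg _) (pow_nonneg hr _)
        _ = r ^ K := mul_one _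

theorem Gd_one (hr : 0 ≤ r) : Gd r (fun _ : Fin N → k ↦ (1 : k)) := by
  classical
  intro K
  refine ⟨1, ?_, ?_⟩
  · intro τ
    rw [MvPolynomial.coeff_one]
    split_ifs with h
    · rw [← h]; simp
    · rw [norm_zero]; exact pow_nonneg hr _
  · intro z _
    rw [map_one, sub_self, norm_zero]; exact pow_nonneg hr _

theorem Gd_pow (hr : 0 ≤ r) (hr1 : r ≤ 1) (f : (Fin N → k) → k) (n : ℕ) (hf : Gd r f) :
    Gd r (fun z ↦ f z ^ n) := by
  induction n with
  | zero => simpa using Gd_one (k := k) (N := N) hr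
  | succ n ih =>
    have := Gd_mul hr hr1 _ _ ih hf
    simpa [pow_succ] using this

theorem Gd_prod (hr : 0 ≤ r) (hr1 : r ≤ 1) {ι : Type x} (s : Finset ι) (f : ι → (Fin N → k) → k)
    (hf : ∀ i ∈ s, Gd r (f i)) : Gd r (fun z ↦ ∏ i ∈ s, f i z) := by
  classical
  induction s using Finset.induction_on with
  | empty => simpa using Gd_one (k := k) (N := N) hr
  | insert a s ha ih =>
    have h1 := Gd_mul hr hr1 _ _ (hf a (Finset.mem_insert_self a s))
      (ih fun i hi ↦ hf i (Finset.mem_insert_of_mem hi))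
    simpa [Finset.prod_insert ha] using h1

theorem Gd_lin (hr : 0 ≤ r) (A : Fin N → k) (hA : ∀ n, ‖A n‖ ≤ r) :
    Gd r (fun z : Fin N → k ↦ ∑ n, A n * z n) := by
  classical
  intro K
  refine ⟨∑ n, MvPolynomial.C (A n) * MvPolynomial.X n, ?_, ?_⟩
  · intro τ
    rw [MvPolynomial.coeff_sum]
    apply IsUltrametricDist.norm_sum_le_of_forall_le_of_nonneg (pow_nonneg hr _)
    intro n _
    rw [MvPolynomial.coeff_C_mul, MvPolynomial.coeff_X]
    split_ifs with h
    · rw [← h, mul_one]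
      have e : ∑ m, (Finsupp.single n 1 : Fin N →₀ ℕ) m = 1 := by
        rw [Finset.sum_eq_single n]
        · simp
        · intro b _ hb
          rw [Finsupp.single_apply, if_neg (Ne.symm hb)]
        · intro h; exact absurd (Finset.mem_univ n) h
      rw [e, pow_one]
      exact hA n
    · rw [mul_zero, norm_zero]; exact pow_nonneg hr _
  · intro z _
    rw [map_sum]
    simp only [map_mul, MvPolynomial.eval_C, MvPolynomial.eval_X]
    rw [sub_self, norm_zero]; exact pow_nonneg hr _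

end

theorem gdm : S_GDM.{v, x} := by
  intro k _ _ N r hr hr1
  refine ⟨fun f g hf hg ↦ Gd_mul hr hr1 f g hf hg, Gd_one hr, fun f n hf ↦ Gd_pow hr hr1 f n hf,
    fun ι s f hf ↦ Gd_prod hr hr1 s f hf, fun A hA ↦ Gd_lin hr A hA⟩

end Pool.Agent.Helper68.SLR.GDM
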